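import Pool.Agent.MP_9694c2_lc.PS.All

/-!
For every fixed `k ≥ 42`, deciding whether the hunting number is at most `k` is hard for
polynomial space under polynomial-time many-one reductions, already for simple bipartite graphs.
-/

set_option autoImplicit false

namespace Pool.Agent.Results.MP_9694c2_lc.PspaceHard

open Pool.Agent.MP_9694c2_lc

theorem result : ∀ k : ℕ, 42 ≤ k → ∀ L ∈ PS.PSPACE,
    ∃ f : List Bool → List (ℕ × ℕ), N68a2faeb.IsPolyTime f ∧
      ∀ x, (f x).Nodup ∧ (∀ e ∈ f x, Even e.1 ∧ Odd e.2) ∧ (L x = true ↔ hunt (f x) ≤ k) :=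
  PS.hard

end Pool.Agent.Results.MP_9694c2_lc.PspaceHard
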