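import Pool.Agent.MP_9694c2_lc.Encode

/-!
For every fixed `k ≥ 2`, deciding whether the hunting number is at most `k` is NP-hard under
polynomial-time many-one reductions, already for trees.
-/

set_option autoImplicit false

namespace Pool.Agent.Results.MP_9694c2_lc.TreeHard

open Pool.Agent.MP_9694c2_lc

theorem result : ∀ k : ℕ, 2 ≤ k → ∀ L ∈ N68a2faeb.NP,
    ∃ f : List Bool → List (ℕ × ℕ), N68a2faeb.IsPolyTime f ∧
      ∀ x, IsTreeE (f x) ∧ (f x).Nodup ∧ (∀ e ∈ f x, e.swap ∉ f x) ∧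
        (L x = true ↔ hunt (f x) ≤ k) := by
  intro k hk L hL
  obtain ⟨f, h1, h2⟩ := hard_all hL k hk
  refine ⟨fun x => (f x).dedup, (Pool.Agent.PolyT.poly_iff _).1 h1.dedup, fun x => ?_⟩
  obtain ⟨d, h3, h4⟩ := h2 x
  have h5 : Good (f x).dedup 0 d :=
    ⟨fun h => h3.ne (List.dedup_eq_nil _ |>.1 h), h3.root,
      fun a b h => h3.dep a b (List.mem_dedup.1 h),
      fun a b b' h h' => h3.uniq a b b' (List.mem_dedup.1 h) (List.mem_dedup.1 h'),
      fun a b h => (h3.par a b (List.mem_dedup.1 h)).imp id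
        fun ⟨c, hc⟩ => ⟨c, List.mem_dedup.2 hc⟩⟩
  have h6 : adjE (f x).dedup = adjE (f x) := by
    funext a b
    simp only [adjE, List.mem_dedup]
  refine ⟨h5.isTree, List.nodup_dedup _, fun e he he' => ?_, ?_⟩
  · have := h5.dep e.1 e.2 he
    have := h5.dep e.2 e.1 he'
    omega
  · rw [h4, h3.hunt_le, h5.hunt_le, h6]

end Pool.Agent.Results.MP_9694c2_lc.TreeHard
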